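import Mathlib

set_option autoImplicit false

namespace Pool.Agent.Helper20.FP

open Cardinal

/-- an algebraically independent family in the algebraic closure of a finite family is not longer -/
theorem card_le {k E : Type} [Field k] [Field E] [Algebra k E] {A B : Type} [Finite A] [Finite B]
    {c : A → E} (hc : AlgebraicIndependent k c) {u : B → E}
    (h : ∀ a, IsAlgebraic (IntermediateField.adjoin k (Set.range u)) (c a)) :
    Nat.card A ≤ Nat.card B := by
  classical
  have h1 : (AlgebraicIndependent.matroid k E).Indep (Set.range c) :=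
    AlgebraicIndependent.matroid_indep_iff.mpr hc.to_subtype_range
  have h2 : Set.range c ⊆ (AlgebraicIndependent.matroid k E).closure (Set.range u) := by
    rw [AlgebraicIndependent.matroid_closure_eq]
    rintro _ ⟨a, rfl⟩
    have h3 := h a
    rw [SetLike.mem_coe]
    exact (IntermediateField.isAlgebraic_adjoin_iff).mp h3
  have h3 := h1.encard_le_eRk_of_subset h2
  rw [Matroid.eRk_closure_eq] at h3
  have h4 := h3.trans (Matroid.eRk_le_encard _ _)
  have h5 : (Set.range c).encard = Nat.card A := by
    rw [← Set.image_univ, hc.injective.encard_image, Set.encard_univ, ENat.card_eq_coe_natCard]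
  have h6 : (Set.range u).encard ≤ Nat.card B := by
    rw [← Set.image_univ, ← ENat.card_eq_coe_natCard, ← Set.encard_univ]
    exact Set.encard_image_le _ _
  rw [h5] at h4
  exact_mod_cast h4.trans h6

/-- The coefficients of a linear relation at an independent family are in the field generated by the
entries and the other coefficients. -/
theorem coeff_mem {E : Type} [Field E] (L : Subfield E) {A M : Type} [Fintype A]
    (a : A → M → E) (c : A → E) (S : Set A) [DecidablePred (· ∈ S)]
    (ha : ∀ x m, a x m ∈ L) (hc : ∀ x, x ∉ S → c x ∈ L)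
    (hrel : ∀ m, ∑ x, c x * a x m ∈ L)
    (hind : ∀ l : A → E, (∀ x, x ∉ S → l x = 0) → (∀ m, ∑ x, l x * a x m = 0) → ∀ x, l x = 0) :
    ∀ x, c x ∈ L := by
  obtain ⟨π, hπ⟩ := (Algebra.linearMap L E).exists_leftInverse_of_injective (by
    rw [LinearMap.ker_eq_bot]
    exact (algebraMap L E).injective)
  have hπ1 : ∀ y : L, π (y : E) = y := fun y => by
    exact LinearMap.congr_fun hπ y
  have hπ2 : ∀ (x : E) (y : E) (hy : y ∈ L), π (x * y) = π x * ⟨y, hy⟩ := by
    intro x y hy
    have h1 : x * y = (⟨y, hy⟩ : L) • x := by
      rw [Subfield.smul_def, smul_eq_mul, mul_comm]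
    rw [h1, map_smul, smul_eq_mul, mul_comm]
  have key := hind (fun x => c x - (π (c x) : E)) (fun x hx => by
      have := hπ1 ⟨c x, hc x hx⟩
      simp only at this
      rw [this]
      exact sub_self _) (fun m => by
      have h1 : (⟨_, hrel m⟩ : L) = π (∑ x, c x * a x m) := (hπ1 ⟨_, hrel m⟩).symm
      rw [map_sum] at h1
      have h2 : ∑ x, (π (c x) : E) * a x m = ∑ x, c x * a x m := by
        have h3 := congrArg (Subtype.val) h1
        have h4 : ((∑ x, π (c x * a x m) : L) : E) = ∑ x, (π (c x) : E) * a x m := by
          rw [AddSubmonoidClass.coe_finsetSum]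
          refine Finset.sum_congr rfl fun x _ => ?_
          rw [hπ2 (c x) (a x m) (ha x m)]
          rfl
        rw [← h4, ← h3]
      simp only [sub_mul, Finset.sum_sub_distrib, h2, sub_self])
  intro x
  have h1 : c x = (π (c x) : E) := sub_eq_zero.mp (key x)
  rw [h1]
  exact (π (c x)).2

end Pool.Agent.Helper20.FP
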