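import Mathlib

set_option autoImplicit false

namespace Pool.Agent.Helper20.FP

open Finset

/-- `g` is analytic at `z₀` and its derivatives at `z₀` are in `K`. -/
def Good (K : Subfield ℂ) (z₀ : ℂ) (g : ℂ → ℂ) : Prop :=
  AnalyticAt ℂ g z₀ ∧ ∀ m, iteratedDeriv m g z₀ ∈ K

theorem good_const (K : Subfield ℂ) (z₀ : ℂ) {c : ℂ} (hc : c ∈ K) : Good K z₀ fun _ => c := by
  refine ⟨analyticAt_const, fun m => ?_⟩
  rcases m with _ | m
  · simpa using hc
  · rw [iteratedDeriv_const]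
    simp [K.zero_mem]

theorem Good.mul {K : Subfield ℂ} {z₀ : ℂ} {g h : ℂ → ℂ} (hg : Good K z₀ g) (hh : Good K z₀ h) :
    Good K z₀ fun z => g z * h z := by
  refine ⟨hg.1.mul hh.1, fun m => ?_⟩
  have h1 : iteratedDeriv m (fun z => g z * h z) z₀ = ∑ i ∈ range (m + 1),
      (m.choose i : ℂ) * iteratedDeriv i g z₀ * iteratedDeriv (m - i) h z₀ :=
    iteratedDeriv_fun_mul hg.1.contDiffAt hh.1.contDiffAt
  rw [h1]
  refine K.sum_mem fun i _ => K.mul_mem (K.mul_mem ?_ (hg.2 i)) (hh.2 (m - i))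
  exact natCast_mem K _

theorem Good.pow {K : Subfield ℂ} {z₀ : ℂ} {g : ℂ → ℂ} (hg : Good K z₀ g) (n : ℕ) :
    Good K z₀ fun z => g z ^ n := by
  induction n with
  | zero => simpa using good_const K z₀ K.one_mem
  | succ n ih => simpa [pow_succ] using ih.mul hg

theorem good_prod {K : Subfield ℂ} {z₀ : ℂ} {ι : Type} (s : Finset ι) {g : ι → ℂ → ℂ}
    (hg : ∀ i, Good K z₀ (g i)) : Good K z₀ fun z => ∏ i ∈ s, g i z := by
  classical
  induction s using Finset.induction_on with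
  | empty => simpa using good_const K z₀ K.one_mem
  | insert a s ha ih => simpa [Finset.prod_insert ha] using (hg a).mul ih

/-- the monomial `x ^ α` along `f` -/
noncomputable def mono {N : ℕ} (f : ℂ → Fin (N + 1) → ℂ) (α : Fin (N + 1) →₀ ℕ) (z : ℂ) : ℂ :=
  ∏ j, f z j ^ α j

theorem good_mono {K : Subfield ℂ} {z₀ : ℂ} {N : ℕ} {f : ℂ → Fin (N + 1) → ℂ}
    (hf : ∀ j, Good K z₀ fun z => f z j) (α : Fin (N + 1) →₀ ℕ) : Good K z₀ (mono f α) :=
  good_prod _ fun j => (hf j).pow (α j)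

/-- an analytic function on a connected open set is zero if its derivatives at a point are zero -/
theorem eq_zero_of_iteratedDeriv {U : Set ℂ} (hUc : IsPreconnected U) {h : ℂ → ℂ}
    (hh : AnalyticOnNhd ℂ h U) {z₀ : ℂ} (hz : z₀ ∈ U) (h0 : ∀ m, iteratedDeriv m h z₀ = 0) :
    ∀ z ∈ U, h z = 0 := by
  have h1 : analyticOrderAt h z₀ = ⊤ := by
    rw [ENat.eq_top_iff_forall_ge]
    intro n
    exact (natCast_le_analyticOrderAt_iff_iteratedDeriv_eq_zero (hh z₀ hz)).mpr fun i _ => h0 i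
  rw [analyticOrderAt_eq_top] at h1
  exact fun z hz' => hh.eqOn_zero_of_preconnected_of_eventuallyEq_zero hUc hz h1 hz'

theorem iteratedDeriv_sum_mul {ι : Type} (s : Finset ι) (c : ι → ℂ) {g : ι → ℂ → ℂ} {z₀ : ℂ}
    (hg : ∀ i, AnalyticAt ℂ (g i) z₀) (m : ℕ) :
    iteratedDeriv m (fun z => ∑ i ∈ s, c i * g i z) z₀ =
      ∑ i ∈ s, c i * iteratedDeriv m (g i) z₀ := by
  have h : iteratedDeriv m (fun z => ∑ i ∈ s, c i * g i z) z₀ =
      ∑ i ∈ s, iteratedDeriv m (fun z => c i * g i z) z₀ :=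
    iteratedDeriv_fun_sum (f := fun i z => c i * g i z)
      (fun i _ => (analyticAt_const.mul (hg i)).contDiffAt)
  rw [h]
  refine Finset.sum_congr rfl fun i _ => ?_
  exact iteratedDeriv_const_mul (c i) (hg i).contDiffAt

instance finDeg {n : ℕ} (d : ℕ) : Finite {α : Fin n →₀ ℕ // α.degree = d} := by
  have h1 : {m : Fin n →₀ ℕ | m.degree = d}.Finite := by
    refine (Finsupp.finite_of_degree_le d).subset ?_
    intro m hm
    exact le_of_eq hm
  exact h1

theorem card_deg (w d : ℕ) :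
    Nat.card {β : Fin (w + 1) →₀ ℕ // β.degree = d} = (d + w).choose w := by
  classical
  have h1 : Nat.card {β : Fin (w + 1) →₀ ℕ // β.degree = d} =
      (Finset.univ.finsuppAntidiag d : Finset (Fin (w + 1) →₀ ℕ)).card := by
    rw [← Fintype.card_coe, ← Nat.card_eq_fintype_card]
    refine Nat.card_congr (Equiv.subtypeEquivRight fun β => ?_)
    rw [Finset.mem_finsuppAntidiag, Finsupp.degree_eq_sum]
    simp
  rw [h1, Finset.card_finsuppAntidiag_nat_eq_choose, Finset.card_univ, Fintype.card_fin]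
  have : w + 1 + d - 1 = d + w := by omega
  rw [this, ← Nat.choose_symm_of_eq_add]
  omega

end Pool.Agent.Helper20.FP
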