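import Mathlib

set_option autoImplicit false

namespace Pool.Agent.Helper20.FP

open MvPolynomial

theorem eval_smul_form {n e : ℕ} {G : MvPolynomial (Fin n) ℂ} (hG : G.IsHomogeneous e) (c : ℂ)
    (x : Fin n → ℂ) : eval (fun i => c * x i) G = c ^ e * eval x G := by
  rw [eval_eq', eval_eq', Finset.mul_sum]
  refine Finset.sum_congr rfl fun m hm => ?_
  have hd : m.degree = e := by
    by_contra h0
    rw [mem_support_iff] at hm
    exact hm (hG.coeff_eq_zero h0)
  have h1 : ∏ i, (c * x i) ^ m i = c ^ e * ∏ i, x i ^ m i := by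
    simp_rw [mul_pow]
    rw [Finset.prod_mul_distrib, Finset.prod_pow_eq_pow_sum, ← Finsupp.degree_eq_sum, hd]
  rw [h1]
  ring

theorem finset_factor {U : Set ℂ} (hUc : IsPreconnected U) {v : ℂ → ℂ} {g : ℂ → ℂ → ℂ}
    (hv : AnalyticOnNhd ℂ v U) (hg : ∀ r, AnalyticOnNhd ℂ (g r) U) (s : Finset ℂ)
    (h : ∀ z ∈ U, v z * ∏ r ∈ s, g r z = 0) :
    (∀ z ∈ U, v z = 0) ∨ ∃ r, ∀ z ∈ U, g r z = 0 := by
  classical
  induction s using Finset.induction_on with
  | empty => exact Or.inl fun z hz => by simpa using h z hz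
  | insert a s ha ih =>
    have h1 : ∀ z ∈ U, g a z * (v z * ∏ r ∈ s, g r z) = 0 := by
      intro z hz
      have := h z hz
      rw [Finset.prod_insert ha] at this
      rw [← this]
      ring
    rcases (hg a).eq_zero_or_eq_zero_of_mul_eq_zero
      (hv.mul (Finset.analyticOnNhd_fun_prod _ fun r _ => hg r)) h1 hUc with h2 | h2
    · exact Or.inr ⟨a, h2⟩
    · exact ih h2

/-- two functions which satisfy a binary form are proportional -/
theorem binary {U : Set ℂ} (hUc : IsPreconnected U) {u v : ℂ → ℂ} (hu : AnalyticOnNhd ℂ u U)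
    (hv : AnalyticOnNhd ℂ v U) {e : ℕ} {G : MvPolynomial (Fin 2) ℂ} (hG : G.IsHomogeneous e)
    (hG0 : G ≠ 0) (h : ∀ z ∈ U, eval ![u z, v z] G = 0) :
    (∀ z ∈ U, v z = 0) ∨ ∃ r : ℂ, ∀ z ∈ U, u z - r * v z = 0 := by
  classical
  set p : Polynomial ℂ := aeval ![Polynomial.X, 1] G with hp
  have hpe : ∀ x : ℂ, p.eval x = eval ![x, 1] G := by
    intro x
    have h1 : (Polynomial.aeval x) p = aeval ![x, 1] G := by
      rw [hp]
      have : (Polynomial.aeval x : Polynomial ℂ →ₐ[ℂ] ℂ).comp (aeval ![Polynomial.X, 1]) =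
          (aeval ![x, 1] : MvPolynomial (Fin 2) ℂ →ₐ[ℂ] ℂ) := by
        apply MvPolynomial.algHom_ext
        intro i
        fin_cases i <;> simp
      exact DFunLike.congr_fun this G
    rw [← Polynomial.coe_aeval_eq_eval, h1]
    rfl
  have hval : ∀ x y : ℂ, y ≠ 0 → eval ![x, y] G = y ^ e * p.eval (x / y) := by
    intro x y hy
    rw [hpe, ← eval_smul_form hG]
    congr 2
    funext i
    fin_cases i
    · simp; field_simp
    · simp
  have hp0 : p ≠ 0 := by
    intro h0
    have h1 : G * X 1 = 0 := by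
      apply MvPolynomial.funext
      intro x
      rw [map_mul, eval_X, map_zero]
      by_cases hx : x 1 = 0
      · rw [hx, mul_zero]
      · have h2 := hval (x 0) (x 1) hx
        have h3 : ![x 0, x 1] = x := by
          funext i
          fin_cases i <;> rfl
        rw [h3, h0] at h2
        rw [h2]
        simp
    rcases mul_eq_zero.mp h1 with h2 | h2
    · exact hG0 h2
    · exact X_ne_zero 1 h2
  refine finset_factor hUc hv (g := fun r z => u z - r * v z)
    (fun r => hu.sub (analyticOnNhd_const.mul hv)) p.roots.toFinset fun z hz => ?_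
  by_cases hvz : v z = 0
  · rw [hvz, zero_mul]
  · have h1 := h z hz
    rw [hval _ _ hvz] at h1
    have h2 : p.eval (u z / v z) = 0 := by
      rcases mul_eq_zero.mp h1 with h3 | h3
      · exact absurd h3 (pow_ne_zero _ hvz)
      · exact h3
    have h3 : u z / v z ∈ p.roots.toFinset := by
      rw [Multiset.mem_toFinset, Polynomial.mem_roots hp0]
      exact h2
    rw [Finset.prod_eq_zero h3, mul_zero]
    field_simp
    ring

end Pool.Agent.Helper20.FP
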