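import Mathlib

set_option autoImplicit false

namespace Pool.Agent.Helper20.FP

open MvPolynomial

variable {k : Subfield ℂ} {m : ℕ}

theorem hasDerivAt_aeval {y : ℂ → Fin m → ℂ} {y' : Fin m → ℂ} {z : ℂ}
    (hy : ∀ i, HasDerivAt (fun z => y z i) (y' i) z) (B : MvPolynomial (Fin m) k) :
    HasDerivAt (fun z => aeval (y z) B) (∑ i, aeval (y z) (pderiv i B) * y' i) z := by
  induction B using MvPolynomial.induction_on with
  | C a =>
    simp only [MvPolynomial.aeval_C, pderiv_C, map_zero, zero_mul, Finset.sum_const_zero]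
    exact hasDerivAt_const _ _
  | add p q hp hq =>
    simp only [map_add, add_mul, Finset.sum_add_distrib]
    exact hp.add hq
  | mul_X p n hp =>
    have h1 := hp.mul (hy n)
    have h2 : (fun z => aeval (y z) (p * X n)) = fun z => aeval (y z) p * y z n := by
      funext w
      simp
    rw [h2]
    refine HasDerivAt.congr_deriv h1 ?_
    symm
    simp only [Derivation.leibniz, map_add, smul_eq_mul, map_mul, aeval_X, add_mul,
      Finset.sum_add_distrib]
    rw [add_comm]
    congr 1
    · rw [Finset.sum_mul]
      exact Finset.sum_congr rfl fun i _ => by ring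
    · rw [Finset.sum_eq_single n]
      · simp
      · intro b _ hb
        rw [pderiv_X_of_ne hb.symm]
        simp
      · simp

/-- iterated derivatives along a solution of an algebraic differential equation -/
theorem iterated_ode {U : Set ℂ} (hU : IsOpen U) {y : ℂ → Fin m → ℂ}
    (hy : ∀ i, DifferentiableOn ℂ (fun z => y z i) U) (P : Fin m → MvPolynomial (Fin m) k)
    (Q : MvPolynomial (Fin m) k)
    (hode : ∀ z ∈ U, ∀ i, aeval (y z) Q * deriv (fun z => y z i) z = aeval (y z) (P i))
    (R : MvPolynomial (Fin m) k) (n : ℕ) :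
    ∃ (A : MvPolynomial (Fin m) k) (s : ℕ), ∀ z ∈ U, aeval (y z) Q ≠ 0 →
      iteratedDeriv n (fun z => aeval (y z) R) z = aeval (y z) A / aeval (y z) Q ^ s := by
  have hder : ∀ z ∈ U, ∀ i, HasDerivAt (fun z => y z i) (deriv (fun z => y z i) z) z :=
    fun z hz i => ((hy i).differentiableAt (hU.mem_nhds hz)).hasDerivAt
  induction n with
  | zero => exact ⟨R, 0, fun z _ _ => by simp⟩
  | succ n ih =>
    obtain ⟨A, s, h⟩ := ih
    set D : MvPolynomial (Fin m) k → MvPolynomial (Fin m) k := fun B => ∑ i, pderiv i B * P i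
      with hD
    have hDB : ∀ B : MvPolynomial (Fin m) k, ∀ z ∈ U, aeval (y z) Q ≠ 0 →
        HasDerivAt (fun z => aeval (y z) B) (aeval (y z) (D B) / aeval (y z) Q) z := by
      intro B z hz hq
      convert hasDerivAt_aeval (hder z hz) B using 1
      rw [hD, map_sum, Finset.sum_div]
      refine Finset.sum_congr rfl fun i _ => ?_
      rw [map_mul, ← hode z hz i]
      field_simp
    refine ⟨Q * D A - (s : MvPolynomial (Fin m) k) * A * D Q, s + 2, fun z hz hq => ?_⟩
    rw [iteratedDeriv_succ]
    have h1 : iteratedDeriv n (fun z => aeval (y z) R) =ᶠ[nhds z]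
        fun z => aeval (y z) A / aeval (y z) Q ^ s := by
      have hc : ContinuousAt (fun z => aeval (y z) Q) z := (hDB Q z hz hq).continuousAt
      filter_upwards [hU.mem_nhds hz, hc.eventually_ne hq] with x hx hqx
      exact h x hx hqx
    rw [h1.deriv_eq]
    have h2 := ((hDB A z hz hq).div ((hDB Q z hz hq).pow s) (pow_ne_zero s hq)).deriv
    have h3 : deriv (fun z => aeval (y z) A / aeval (y z) Q ^ s) z = _ := h2
    rw [h3]
    rcases s with _ | s
    · simp only [pow_zero, map_sub, map_mul, Nat.cast_zero, zero_mul, sub_zero]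
      simp
      field_simp
    · simp only [map_sub, map_mul, map_natCast, Nat.add_sub_cancel, Pi.pow_apply]
      field_simp
      ring

end Pool.Agent.Helper20.FP
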