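import Pool.Agent.Helper20.FP.Main
import Pool.Agent.Helper20.FP.Ode
import Pool.Agent.Helper20.FP.Bin

set_option autoImplicit false

namespace Pool.Agent.Helper20.FP

open MvPolynomial

/-- The functions `g i` are polynomials, with coefficients in `k`, in a solution `y`, holomorphic on
`U`, of a system `Q (y) y_j' = P_j (y)` of algebraic differential equations over `k` (any number of
unknown functions, any degrees), where `Q (y)` is not zero at a point `z₀`, and the initial values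
`y_j (z₀)` are algebraic over a field generated by `T` elements over `k`. -/
def SolvesODE (k : Subfield ℂ) {ι : Type} (U : Set ℂ) (g : ι → ℂ → ℂ) (T : ℕ) : Prop :=
  ∃ (m : ℕ) (y : ℂ → Fin m → ℂ) (P : Fin m → MvPolynomial (Fin m) k) (Q : MvPolynomial (Fin m) k)
    (R : ι → MvPolynomial (Fin m) k),
    (∀ j, DifferentiableOn ℂ (fun z => y z j) U) ∧
    (∀ z ∈ U, ∀ j, aeval (y z) Q * deriv (fun z => y z j) z = aeval (y z) (P j)) ∧
    (∀ i, ∀ z ∈ U, g i z = aeval (y z) (R i)) ∧
    ∃ z₀ ∈ U, aeval (y z₀) Q ≠ 0 ∧ ∃ t : Fin T → ℂ, ∀ j,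
      IsAlgebraic (IntermediateField.adjoin k (Set.range t)) (y z₀ j)

theorem aeval_mem {k : Subfield ℂ} {m : ℕ} {K : Subfield ℂ} (hk : ∀ x : k, (x : ℂ) ∈ K)
    {v : Fin m → ℂ} (hv : ∀ j, v j ∈ K) (A : MvPolynomial (Fin m) k) : aeval v A ∈ K := by
  induction A using MvPolynomial.induction_on with
  | C a => rw [MvPolynomial.aeval_C]; exact hk a
  | add p q hp hq => rw [map_add]; exact K.add_mem hp hq
  | mul_X p n hp => rw [map_mul, aeval_X]; exact K.mul_mem hp (hv n)

theorem SolvesODE.parameters {k : Subfield ℂ} {ι : Type} {U : Set ℂ} (hU : IsOpen U)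
    {g : ι → ℂ → ℂ} {T : ℕ} (h : SolvesODE k U g T) : Parameters k U g T := by
  obtain ⟨m, y, P, Q, R, hy, hode, hg, z₀, hz₀, hQ, t, ht⟩ := h
  refine ⟨z₀, hz₀, t, fun i n => ?_⟩
  rw [← mem_alg]
  have e1 : g i =ᶠ[nhds z₀] fun z => aeval (y z) (R i) := by
    filter_upwards [hU.mem_nhds hz₀] with z hz
    exact hg i z hz
  rw [e1.iteratedDeriv_eq]
  obtain ⟨A, s, hA⟩ := iterated_ode hU hy P Q hode (R i) n
  rw [hA z₀ hz₀ hQ]
  have hk : ∀ x : k, (x : ℂ) ∈
      (algebraicClosure (IntermediateField.adjoin k (Set.range t)) ℂ).toSubfield := fun x => by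
    rw [mem_alg]
    exact isAlgebraic_algebraMap
      (algebraMap k (IntermediateField.adjoin k (Set.range t)) x)
  have hv : ∀ j, y z₀ j ∈
      (algebraicClosure (IntermediateField.adjoin k (Set.range t)) ℂ).toSubfield :=
    fun j => (mem_alg _ _).2 (ht j)
  exact div_mem (aeval_mem hk hv A) (pow_mem (aeval_mem hk hv Q) s)

/-- a curve with fewer than `∑ (d i + 1)` parameters is constant -/
theorem constant_of_lt {k : Subfield ℂ} {q N : ℕ} {d : Fin q → ℕ}
    {F : Fin q → MvPolynomial (Fin (N + 1)) ℂ} (hF : VeryGeneral k d F) {U : Set ℂ}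
    (hUc : IsPreconnected U) {f : ℂ → Fin (N + 1) → ℂ}
    (hf : ∀ j, AnalyticOnNhd ℂ (fun z => f z j) U)
    {T : ℕ} (hT : Parameters k U (coordValues F f) T) (h : T < ∑ i, (d i + 1)) (i j : Fin (N + 1)) :
    ∀ z ∈ U, ∀ z' ∈ U, f z i * f z' j = f z j * f z' i := by
  have h1 : ¬ IndepAlong U f ![i, j] := by
    intro h2
    have h3 := bound hF hUc hf hT (w := 1) h2
    have h4 : ∑ i, (d i + 1) ≤ T := by
      refine le_trans (le_of_eq ?_) h3
      exact Finset.sum_congr rfl fun i _ => (Nat.choose_one_right _).symm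
    exact absurd h4 (not_le.mpr h)
  unfold IndepAlong at h1
  push Not at h1
  obtain ⟨G, ⟨e, hG⟩, hz, hG0⟩ := h1
  have h2 : ∀ z ∈ U, eval ![f z i, f z j] G = 0 := by
    intro z hz'
    rw [← hz z hz']
    congr 1
    congr 1
    funext a
    fin_cases a <;> rfl
  rcases binary hUc (hf i) (hf j) hG hG0 h2 with h3 | ⟨r, h3⟩
  · intro z hz z' hz'
    rw [h3 z hz, h3 z' hz']
    ring
  · intro z hz z' hz'
    rw [sub_eq_zero.mp (h3 z hz), sub_eq_zero.mp (h3 z' hz')]
    ring

end Pool.Agent.Helper20.FP
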