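import Pool.Agent.Helper20.FP.Fin

set_option autoImplicit false

namespace Pool.Agent.Helper20.FP

open MvPolynomial

/-- statement of the line lemma -/
def S_Line : Prop := ∀ (k : Subfield ℂ) (q N : ℕ) (d : Fin q → ℕ)
    (F : Fin q → MvPolynomial (Fin (N + 1)) ℂ), VeryGeneral k d F → ∀ U : Set ℂ,
    IsPreconnected U → ∀ f : ℂ → Fin (N + 1) → ℂ, (∀ j, AnalyticOnNhd ℂ (fun z => f z j) U) →
    (∀ i, ∀ z ∈ U, eval (f z) (F i) = 0) → 2 * (N - 1) < ∑ i, (d i + 1) →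
    (∀ σ : Fin 3 → Fin (N + 1), ∃ c : Fin 3 → ℂ, c ≠ 0 ∧ ∀ z ∈ U, ∑ a, c a * f z (σ a) = 0) →
    ∀ i j, ∀ z ∈ U, ∀ z' ∈ U, f z i * f z' j = f z j * f z' i

end Pool.Agent.Helper20.FP
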