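import Pool.Agent.Helper20.FP.Alg
import Pool.Agent.Helper20.FP.Ana

set_option autoImplicit false

namespace Pool.Agent.Helper20.FP

open MvPolynomial

/-- the coefficients of `q` forms of degrees `d i` in `n` variables -/
abbrev Idx {q : ℕ} (n : ℕ) (d : Fin q → ℕ) : Type :=
  (i : Fin q) × {α : Fin n →₀ ℕ // α.degree = d i}

/-- The forms `F i` of degrees `d i` are very general over the field `k`: all their coefficients
together are algebraically independent over `k`. -/
def VeryGeneral (k : Subfield ℂ) {q N : ℕ} (d : Fin q → ℕ)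
    (F : Fin q → MvPolynomial (Fin (N + 1)) ℂ) : Prop :=
  (∀ i, (F i).IsHomogeneous (d i)) ∧
    AlgebraicIndependent k fun p : Idx (N + 1) d => (F p.1).coeff p.2.1

/-- The functions `g i` depend on `T` parameters over `k`: the derivatives of all orders of all the
`g i` at some point of `U` are algebraic over a field which is generated by `T` elements over `k`. -/
def Parameters (k : Subfield ℂ) {ι : Type} (U : Set ℂ) (g : ι → ℂ → ℂ) (T : ℕ) : Prop :=
  ∃ z₀ ∈ U, ∃ t : Fin T → ℂ, ∀ (i : ι) (m : ℕ),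
    IsAlgebraic (IntermediateField.adjoin k (Set.range t)) (iteratedDeriv m (g i) z₀)

/-- the homogeneous coordinates of the curve `f` and the values of the forms `F i` along `f` -/
noncomputable def coordValues {q N : ℕ} (F : Fin q → MvPolynomial (Fin (N + 1)) ℂ)
    (f : ℂ → Fin (N + 1) → ℂ) : Fin (N + 1) ⊕ Fin q → ℂ → ℂ :=
  Sum.elim (fun j z => f z j) fun i z => eval (f z) (F i)

/-- No nonzero form in the coordinates `σ a` vanishes along `f`. -/
def IndepAlong {N w : ℕ} (U : Set ℂ) (f : ℂ → Fin (N + 1) → ℂ) (σ : Fin (w + 1) → Fin (N + 1)) :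
    Prop :=
  ∀ G : MvPolynomial (Fin (w + 1)) ℂ, (∃ e, G.IsHomogeneous e) →
    (∀ z ∈ U, eval (fun a => f z (σ a)) G = 0) → G = 0

theorem IndepAlong.inj {N w : ℕ} {U : Set ℂ} {f : ℂ → Fin (N + 1) → ℂ}
    {σ : Fin (w + 1) → Fin (N + 1)} (h : IndepAlong U f σ) : Function.Injective σ := by
  intro a b hab
  by_contra hne
  have h1 := h (X a - X b) ⟨1, (isHomogeneous_X ℂ a).sub (isHomogeneous_X ℂ b)⟩
    (fun z _ => by simp [hab])
  rw [sub_eq_zero] at h1
  exact hne (X_injective h1)

theorem mono_map {N w : ℕ} (f : ℂ → Fin (N + 1) → ℂ) {σ : Fin (w + 1) → Fin (N + 1)}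
    (β : Fin (w + 1) →₀ ℕ) (z : ℂ) :
    mono f (β.mapDomain σ) z = ∏ a, f z (σ a) ^ β a := by
  unfold mono
  have h1 : ((β.mapDomain σ).prod fun j e => f z j ^ e) = β.prod fun a e => f z (σ a) ^ e :=
    Finsupp.prod_mapDomain_index (fun _ => pow_zero _) (fun _ _ _ => pow_add _ _ _)
  rw [Finsupp.prod_fintype _ _ (fun _ => pow_zero _)] at h1
  rw [Finsupp.prod_fintype _ _ (fun _ => pow_zero _)] at h1
  exact h1

theorem eval_form {N d : ℕ} {F : MvPolynomial (Fin (N + 1)) ℂ} (hF : F.IsHomogeneous d)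
    (f : ℂ → Fin (N + 1) → ℂ) (z : ℂ) [Fintype {α : Fin (N + 1) →₀ ℕ // α.degree = d}] :
    eval (f z) F = ∑ α : {α : Fin (N + 1) →₀ ℕ // α.degree = d}, F.coeff α.1 * mono f α.1 z := by
  classical
  have hsub : F.support ⊆ Finset.univ.map (Function.Embedding.subtype
      fun α : Fin (N + 1) →₀ ℕ => α.degree = d) := by
    intro m hm
    rw [Finset.mem_map]
    have hd : m.degree = d := by
      by_contra h0
      rw [mem_support_iff] at hm
      exact hm (hF.coeff_eq_zero h0)
    exact ⟨⟨m, hd⟩, Finset.mem_univ _, rfl⟩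
  rw [eval_eq', Finset.sum_subset hsub (fun x _ hx => by
    rw [notMem_support_iff.mp hx, zero_mul]), Finset.sum_map]
  rfl

theorem degree_map {N w : ℕ} (σ : Fin (w + 1) → Fin (N + 1)) (β : Fin (w + 1) →₀ ℕ) :
    (β.mapDomain σ).degree = β.degree := Finsupp.degree_mapDomain _ _

/-- the monomials in the coordinates `σ a` -/
noncomputable def psi {q N w : ℕ} (d : Fin q → ℕ) (σ : Fin (w + 1) → Fin (N + 1))
    (p : Idx (w + 1) d) : Idx (N + 1) d :=
  ⟨p.1, ⟨p.2.1.mapDomain σ, (degree_map σ p.2.1).trans p.2.2⟩⟩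

theorem psi_inj {q N w : ℕ} (d : Fin q → ℕ) {σ : Fin (w + 1) → Fin (N + 1)}
    (hσ : Function.Injective σ) : Function.Injective (psi d σ) := by
  rintro ⟨i, β, hβ⟩ ⟨i', β', hβ'⟩ h
  have h1 : i = i' := congrArg Sigma.fst h
  subst h1
  have h2 : β.mapDomain σ = β'.mapDomain σ := by
    have h3 := eq_of_heq (Sigma.mk.inj h).2
    exact congrArg Subtype.val h3
  have h3 : β = β' := Finsupp.mapDomain_injective hσ h2
  subst h3
  rfl

theorem alg_mono {A B : Type} {k : Subfield ℂ} {t : A → ℂ} {u : B → ℂ}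
    (h : Set.range t ⊆ Set.range u) {x : ℂ}
    (hx : IsAlgebraic (IntermediateField.adjoin k (Set.range t)) x) :
    IsAlgebraic (IntermediateField.adjoin k (Set.range u)) x := by
  have hle : IntermediateField.adjoin k (Set.range t) ≤ IntermediateField.adjoin k (Set.range u) :=
    IntermediateField.adjoin.mono _ _ _ h
  let _ := (IntermediateField.inclusion hle).toRingHom.toAlgebra
  have : IsScalarTower (IntermediateField.adjoin k (Set.range t))
      (IntermediateField.adjoin k (Set.range u)) ℂ := IsScalarTower.of_algebraMap_eq fun _ => rfl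
  exact hx.tower_top _

theorem mem_alg {k : Subfield ℂ} (M : IntermediateField k ℂ) (x : ℂ) :
    x ∈ (algebraicClosure M ℂ).toSubfield ↔ IsAlgebraic M x :=
  mem_algebraicClosure_iff

theorem bound {k : Subfield ℂ} {q N : ℕ} {d : Fin q → ℕ}
    {F : Fin q → MvPolynomial (Fin (N + 1)) ℂ} (hF : VeryGeneral k d F) {U : Set ℂ}
    (hUc : IsPreconnected U) {f : ℂ → Fin (N + 1) → ℂ}
    (hf : ∀ j, AnalyticOnNhd ℂ (fun z => f z j) U)
    {T : ℕ} (hT : Parameters k U (coordValues F f) T) {w : ℕ} {σ : Fin (w + 1) → Fin (N + 1)}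
    (hσ : IndepAlong U f σ) : ∑ i, (d i + w).choose w ≤ T := by
  classical
  obtain ⟨z₀, hz₀, t, ht⟩ := hT
  letI (n d : ℕ) : Fintype {α : Fin n →₀ ℕ // α.degree = d} := Fintype.ofFinite _
  set K : Subfield ℂ := (algebraicClosure (IntermediateField.adjoin k (Set.range t)) ℂ).toSubfield
    with hK
  have hgood : ∀ j, Good K z₀ fun z => f z j := fun j => ⟨hf j z₀ hz₀, fun m => (mem_alg _ _).2 (ht (Sum.inl j) m)⟩
  set c : Idx (N + 1) d → ℂ := fun p => (F p.1).coeff p.2.1 with hc
  set S : Set (Idx (N + 1) d) := Set.range (psi d σ) with hS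
  set L : Subfield ℂ := Subfield.closure ((K : Set ℂ) ∪ c '' Sᶜ) with hL
  set a : Idx (N + 1) d → Fin q × ℕ → ℂ := fun p im =>
    if p.1 = im.1 then iteratedDeriv im.2 (mono f p.2.1) z₀ else 0 with ha
  have hKL : ∀ x ∈ K, x ∈ L := fun x hx => Subfield.subset_closure (Or.inl hx)
  have hinj := psi_inj d hσ.inj
  have h1 : ∀ x, c x ∈ L := by
    refine coeff_mem L a c S (fun x m => ?_) (fun x hx => Subfield.subset_closure (Or.inr
      ⟨x, hx, rfl⟩)) (fun m => ?_) (fun l hl hrel => ?_)
    · simp only [ha]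
      split_ifs
      · exact hKL _ ((good_mono hgood _).2 _)
      · exact L.zero_mem
    · obtain ⟨i, m⟩ := m
      have e1 : ∑ x, c x * a x (i, m) =
          ∑ α : {α : Fin (N + 1) →₀ ℕ // α.degree = d i},
            (F i).coeff α.1 * iteratedDeriv m (mono f α.1) z₀ := by
        rw [Fintype.sum_sigma, Finset.sum_eq_single i]
        · simp [ha, hc]
        · intro b _ hb
          simp [ha, hb]
        · simp
      rw [e1, ← iteratedDeriv_sum_mul (g := fun α : {α : Fin (N + 1) →₀ ℕ // α.degree = d i} =>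
        mono f α.1) Finset.univ (fun α => (F i).coeff α.1) (fun α => (good_mono hgood α.1).1) m]
      have e2 : (fun z => ∑ α : {α : Fin (N + 1) →₀ ℕ // α.degree = d i},
          (F i).coeff α.1 * mono f α.1 z) = fun z => eval (f z) (F i) := by
        funext z
        rw [← eval_form (hF.1 i) f z]
      rw [e2]
      exact hKL _ ((mem_alg _ _).2 (ht (Sum.inr i) m))
    · have key : ∀ p : Idx (w + 1) d, l (psi d σ p) = 0 := by
        rintro ⟨i, β, hβ⟩
        set G : MvPolynomial (Fin (w + 1)) ℂ :=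
          ∑ γ : {γ : Fin (w + 1) →₀ ℕ // γ.degree = d i}, monomial γ.1 (l (psi d σ ⟨i, γ⟩)) with hG
        have hGh : G.IsHomogeneous (d i) := by
          refine IsHomogeneous.sum _ _ _ fun γ _ => ?_
          exact isHomogeneous_monomial _ γ.2
        have e3 : ∀ z, eval (fun a => f z (σ a)) G =
            ∑ γ : {γ : Fin (w + 1) →₀ ℕ // γ.degree = d i},
              l (psi d σ ⟨i, γ⟩) * mono f (γ.1.mapDomain σ) z := by
          intro z
          rw [hG, map_sum]
          refine Finset.sum_congr rfl fun γ _ => ?_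
          rw [eval_monomial, mono_map, Finsupp.prod_fintype _ _ (fun _ => pow_zero _)]
        have e4 : ∀ m, iteratedDeriv m (fun z => ∑ γ : {γ : Fin (w + 1) →₀ ℕ // γ.degree = d i},
              l (psi d σ ⟨i, γ⟩) * mono f (γ.1.mapDomain σ) z) z₀ = 0 := by
          intro m
          rw [iteratedDeriv_sum_mul (g := fun γ : {γ : Fin (w + 1) →₀ ℕ // γ.degree = d i} =>
            mono f (γ.1.mapDomain σ)) Finset.univ (fun γ => l (psi d σ ⟨i, γ⟩))
            (fun γ => (good_mono hgood _).1) m]
          rw [← hrel (i, m)]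
          have e5 : ∑ x, l x * a x (i, m) = ∑ y, l (psi d σ y) * a (psi d σ y) (i, m) := by
            symm
            refine Finset.sum_of_injOn (psi d σ) hinj.injOn (fun _ _ => Finset.mem_coe.2
              (Finset.mem_univ _)) (fun x _ hx => ?_) (fun _ _ => rfl)
            have : x ∉ S := fun ⟨y, hy⟩ => hx ⟨y, Finset.mem_coe.2 (Finset.mem_univ y), hy⟩
            rw [hl x this, zero_mul]
          rw [e5, Fintype.sum_sigma, Finset.sum_eq_single i]
          · refine Finset.sum_congr rfl fun γ _ => ?_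
            simp [ha, psi]
          · intro b _ hb
            refine Finset.sum_eq_zero fun γ _ => ?_
            simp [ha, psi, hb]
          · simp
        have e6 := eq_zero_of_iteratedDeriv hUc (h := fun z =>
          ∑ γ : {γ : Fin (w + 1) →₀ ℕ // γ.degree = d i},
              l (psi d σ ⟨i, γ⟩) * mono f (γ.1.mapDomain σ) z) (by
            have hm : ∀ α, AnalyticOnNhd ℂ (mono f α) U := by
              intro α
              unfold mono
              exact Finset.analyticOnNhd_fun_prod _ fun j _ => (hf j).pow _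
            exact Finset.analyticOnNhd_fun_sum _ fun γ _ =>
              analyticOnNhd_const.mul (hm _)) hz₀ e4
        have e7 : G = 0 := hσ G ⟨d i, hGh⟩ fun z hz => by rw [e3]; exact e6 z hz
        have e8 : G.coeff β = l (psi d σ ⟨i, β, hβ⟩) := by
          rw [hG, coeff_sum, Finset.sum_eq_single ⟨β, hβ⟩]
          · simp
          · intro γ _ hγ
            rw [coeff_monomial, if_neg]
            exact fun h => hγ (Subtype.ext h)
          · simp
        rw [← e8, e7, coeff_zero]
      intro x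
      by_cases hx : x ∈ S
      · obtain ⟨p, rfl⟩ := hx
        exact key p
      · exact hl x hx
  have h2 : Nat.card (Idx (N + 1) d) ≤ Nat.card (Fin T ⊕ {p // p ∉ S}) := by
    refine card_le hF.2 (u := Sum.elim t fun p : {p // p ∉ S} => c p.1) fun p => ?_
    set u : Fin T ⊕ {p // p ∉ S} → ℂ := Sum.elim t fun p : {p // p ∉ S} => c p.1 with hu
    have h3 : L ≤ (algebraicClosure (IntermediateField.adjoin k (Set.range u)) ℂ).toSubfield := by
      rw [hL, Subfield.closure_le]
      rintro x (hx | ⟨y, hy, rfl⟩)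
      · have hx' : IsAlgebraic (IntermediateField.adjoin k (Set.range t)) x := (mem_alg _ _).1 hx
        exact (mem_alg _ _).2 (alg_mono (u := u) (by
          rintro _ ⟨b, rfl⟩
          exact ⟨Sum.inl b, rfl⟩) hx')
      · have : c y ∈ IntermediateField.adjoin k (Set.range u) :=
          IntermediateField.subset_adjoin _ _ ⟨Sum.inr ⟨y, hy⟩, rfl⟩
        exact (mem_alg _ _).2 (isAlgebraic_algebraMap
          (⟨c y, this⟩ : IntermediateField.adjoin k (Set.range u)))
    exact (mem_alg _ _).1 (h3 (h1 p))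
  have h3 : Nat.card (Idx (N + 1) d) = Nat.card S + Nat.card {p // p ∉ S} := by
    have := Nat.card_congr (Equiv.sumCompl fun p => p ∈ S)
    rw [Nat.card_sum] at this
    exact this.symm
  have h4 : Nat.card S = ∑ i, (d i + w).choose w := by
    have e1 : Nat.card S = Nat.card (Idx (w + 1) d) :=
      (Nat.card_congr (Equiv.ofInjective _ hinj)).symm
    rw [e1, Nat.card_sigma]
    exact Finset.sum_congr rfl fun i _ => card_deg w (d i)
  rw [Nat.card_sum, Nat.card_fin] at h2
  omega

end Pool.Agent.Helper20.FP
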