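import Pool.Agent.Helper20.FP.Main

set_option autoImplicit false

namespace Pool.Agent.Helper20.FP

open MvPolynomial

/-- the monomials in `S` are linearly independent along the curve, in each degree -/
def IndepSet {q N : ℕ} (d : Fin q → ℕ) (U : Set ℂ) (f : ℂ → Fin (N + 1) → ℂ)
    (S : (i : Fin q) → Set {α : Fin (N + 1) →₀ ℕ // α.degree = d i}) : Prop :=
  ∀ i (l : {α : Fin (N + 1) →₀ ℕ // α.degree = d i} →₀ ℂ), (∀ α, α ∉ S i → l α = 0) →
    (∀ z ∈ U, (l.sum fun α c => c * mono f α.1 z) = 0) → l = 0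

theorem master {k : Subfield ℂ} {q N : ℕ} {d : Fin q → ℕ}
    {F : Fin q → MvPolynomial (Fin (N + 1)) ℂ} (hF : VeryGeneral k d F) {U : Set ℂ}
    (hUc : IsPreconnected U) {f : ℂ → Fin (N + 1) → ℂ}
    (hf : ∀ j, AnalyticOnNhd ℂ (fun z => f z j) U)
    {T : ℕ} (hT : Parameters k U (coordValues F f) T)
    {S' : (i : Fin q) → Set {α : Fin (N + 1) →₀ ℕ // α.degree = d i}}
    (hS' : IndepSet d U f S') : ∑ i, Nat.card (S' i) ≤ T := by
  classical
  obtain ⟨z₀, hz₀, t, ht⟩ := hT
  let _ (n d : ℕ) : Fintype {α : Fin n →₀ ℕ // α.degree = d} := Fintype.ofFinite _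
  set K : Subfield ℂ := (algebraicClosure (IntermediateField.adjoin k (Set.range t)) ℂ).toSubfield
    with hK
  have hgood : ∀ j, Good K z₀ fun z => f z j := fun j => ⟨hf j z₀ hz₀, fun m =>
    (mem_alg _ _).2 (ht (Sum.inl j) m)⟩
  set c : Idx (N + 1) d → ℂ := fun p => (F p.1).coeff p.2.1 with hc
  set S : Set (Idx (N + 1) d) := {p | p.2 ∈ S' p.1} with hS
  set L : Subfield ℂ := Subfield.closure ((K : Set ℂ) ∪ c '' Sᶜ) with hL
  set a : Idx (N + 1) d → Fin q × ℕ → ℂ := fun p im =>
    if p.1 = im.1 then iteratedDeriv im.2 (mono f p.2.1) z₀ else 0 with ha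
  have hKL : ∀ x ∈ K, x ∈ L := fun x hx => Subfield.subset_closure (Or.inl hx)
  have h1 : ∀ x, c x ∈ L := by
    refine coeff_mem L a c S (fun x m => ?_) (fun x hx => Subfield.subset_closure (Or.inr
      ⟨x, hx, rfl⟩)) (fun m => ?_) (fun l hl hrel => ?_)
    · simp only [ha]
      split_ifs
      · exact hKL _ ((good_mono hgood _).2 _)
      · exact L.zero_mem
    · obtain ⟨i, m⟩ := m
      have e1 : ∑ x, c x * a x (i, m) =
          ∑ α : {α : Fin (N + 1) →₀ ℕ // α.degree = d i},
            (F i).coeff α.1 * iteratedDeriv m (mono f α.1) z₀ := by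
        rw [Fintype.sum_sigma, Finset.sum_eq_single i]
        · simp [ha, hc]
        · intro b _ hb
          simp [ha, hb]
        · simp
      rw [e1, ← iteratedDeriv_sum_mul (g := fun α : {α : Fin (N + 1) →₀ ℕ // α.degree = d i} =>
        mono f α.1) Finset.univ (fun α => (F i).coeff α.1) (fun α => (good_mono hgood α.1).1) m]
      have e2 : (fun z => ∑ α : {α : Fin (N + 1) →₀ ℕ // α.degree = d i},
          (F i).coeff α.1 * mono f α.1 z) = fun z => eval (f z) (F i) := by
        funext z
        rw [← eval_form (hF.1 i) f z]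
      rw [e2]
      exact hKL _ ((mem_alg _ _).2 (ht (Sum.inr i) m))
    · have key : ∀ i, (Finsupp.equivFunOnFinite.symm
          (fun α : {α : Fin (N + 1) →₀ ℕ // α.degree = d i} => l ⟨i, α⟩)) = 0 := by
        intro i
        refine hS' i _ (fun α hα => ?_) ?_
        · exact hl ⟨i, α⟩ hα
        have e3 : ∀ z, ((Finsupp.equivFunOnFinite.symm
            (fun α : {α : Fin (N + 1) →₀ ℕ // α.degree = d i} => l ⟨i, α⟩)).sum
              fun α c => c * mono f α.1 z) =
            ∑ α : {α : Fin (N + 1) →₀ ℕ // α.degree = d i}, l ⟨i, α⟩ * mono f α.1 z := by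
          intro z
          rw [Finsupp.sum_fintype _ _ (fun _ => zero_mul _)]
          rfl
        have e4 : ∀ m, iteratedDeriv m (fun z =>
            ∑ α : {α : Fin (N + 1) →₀ ℕ // α.degree = d i}, l ⟨i, α⟩ * mono f α.1 z) z₀ = 0 := by
          intro m
          rw [iteratedDeriv_sum_mul (g := fun α : {α : Fin (N + 1) →₀ ℕ // α.degree = d i} =>
            mono f α.1) Finset.univ (fun α => l ⟨i, α⟩) (fun α => (good_mono hgood _).1) m]
          rw [← hrel (i, m), Fintype.sum_sigma, Finset.sum_eq_single i]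
          · refine Finset.sum_congr rfl fun γ _ => ?_
            simp [ha]
          · intro b _ hb
            refine Finset.sum_eq_zero fun γ _ => ?_
            simp [ha, hb]
          · simp
        have e6 := eq_zero_of_iteratedDeriv hUc (h := fun z =>
            ∑ α : {α : Fin (N + 1) →₀ ℕ // α.degree = d i}, l ⟨i, α⟩ * mono f α.1 z) (by
            have hm : ∀ α, AnalyticOnNhd ℂ (mono f α) U := by
              intro α
              unfold mono
              exact Finset.analyticOnNhd_fun_prod _ fun j _ => (hf j).pow _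
            exact Finset.analyticOnNhd_fun_sum _ fun γ _ =>
              analyticOnNhd_const.mul (hm _)) hz₀ e4
        intro z hz
        rw [e3]
        exact e6 z hz
      rintro ⟨i, α⟩
      have := DFunLike.congr_fun (key i) α
      exact this
  have h2 : Nat.card (Idx (N + 1) d) ≤ Nat.card (Fin T ⊕ {p // p ∉ S}) := by
    refine card_le hF.2 (u := Sum.elim t fun p : {p // p ∉ S} => c p.1) fun p => ?_
    set u : Fin T ⊕ {p // p ∉ S} → ℂ := Sum.elim t fun p : {p // p ∉ S} => c p.1 with hu
    have h3 : L ≤ (algebraicClosure (IntermediateField.adjoin k (Set.range u)) ℂ).toSubfield := by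
      rw [hL, Subfield.closure_le]
      rintro x (hx | ⟨y, hy, rfl⟩)
      · have hx' : IsAlgebraic (IntermediateField.adjoin k (Set.range t)) x := (mem_alg _ _).1 hx
        exact (mem_alg _ _).2 (alg_mono (u := u) (by
          rintro _ ⟨b, rfl⟩
          exact ⟨Sum.inl b, rfl⟩) hx')
      · have : c y ∈ IntermediateField.adjoin k (Set.range u) :=
          IntermediateField.subset_adjoin _ _ ⟨Sum.inr ⟨y, hy⟩, rfl⟩
        exact (mem_alg _ _).2 (isAlgebraic_algebraMap
          (⟨c y, this⟩ : IntermediateField.adjoin k (Set.range u)))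
    exact (mem_alg _ _).1 (h3 (h1 p))
  have h3 : Nat.card (Idx (N + 1) d) = Nat.card S + Nat.card {p // p ∉ S} := by
    have := Nat.card_congr (Equiv.sumCompl fun p => p ∈ S)
    rw [Nat.card_sum] at this
    exact this.symm
  have h4 : Nat.card S = ∑ i, Nat.card (S' i) := by
    rw [← Nat.card_sigma]
    refine Nat.card_congr ⟨fun p => ⟨p.1.1, ⟨p.1.2, p.2⟩⟩, fun p => ⟨⟨p.1, p.2.1⟩, p.2.2⟩,
      fun _ => rfl, fun _ => rfl⟩
  rw [Nat.card_sum, Nat.card_fin] at h2
  omega

end Pool.Agent.Helper20.FP
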