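import Pool.Agent.Helper20.FP.Ana

set_option autoImplicit false

namespace Pool.Agent.Helper20.FP

open Module

theorem orders {E : Type} [AddCommGroup E] [Module ℂ E] (z₀ : ℂ) (ev : E →ₗ[ℂ] (ℂ → ℂ))
    (han : ∀ x, AnalyticAt ℂ (ev x) z₀) (hfin : ∀ x, x ≠ 0 → analyticOrderAt (ev x) z₀ ≠ ⊤)
    (n : ℕ) : ∀ (W : Submodule ℂ E), FiniteDimensional ℂ W → finrank ℂ W = n →
      ∃ (g : Fin n → E) (o : Fin n → ℕ), (∀ i, g i ∈ W) ∧
        (∀ i, analyticOrderAt (ev (g i)) z₀ = o i) ∧ StrictMono o := by
  classical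
  induction n with
  | zero => exact fun W _ _ => ⟨fun i => i.elim0, fun i => i.elim0, fun i => i.elim0,
      fun i => i.elim0, fun i => i.elim0⟩
  | succ n ih =>
    intro W hW hn
    have hex : ∃ m : ℕ, ∃ x ∈ W, x ≠ 0 ∧ analyticOrderAt (ev x) z₀ = m := by
      have hne : W ≠ ⊥ := by
        rintro rfl
        rw [finrank_bot] at hn
        omega
      obtain ⟨x, hx, hx0⟩ := Submodule.exists_mem_ne_zero_of_ne_bot hne
      obtain ⟨m, hm⟩ := ENat.ne_top_iff_exists.mp (hfin x hx0)
      exact ⟨m, x, hx, hx0, hm.symm⟩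
    set m := Nat.find hex with hm
    obtain ⟨x₀, hx₀, hx₀0, hord⟩ := Nat.find_spec hex
    rw [← hm] at hord
    have hmin : ∀ x ∈ W, x ≠ 0 → ∀ k : ℕ, analyticOrderAt (ev x) z₀ = k → m ≤ k :=
      fun x hx hx0 k hk => Nat.find_min' hex ⟨x, hx, hx0, hk⟩
    let φ : E →ₗ[ℂ] ℂ :=
      { toFun := fun x => iteratedDeriv m (ev x) z₀
        map_add' := fun x y => by
          rw [map_add]
          exact iteratedDeriv_add (han x).contDiffAt (han y).contDiffAt
        map_smul' := fun c x => by
          rw [map_smul]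
          exact iteratedDeriv_const_smul (han x).contDiffAt c }
    have hφ0 : φ x₀ ≠ 0 := ((analyticOrderAt_eq_nat_iff_iteratedDeriv_eq_zero (han x₀)).mp hord).2
    let ψ : W →ₗ[ℂ] ℂ := φ.domRestrict W
    have hψ : LinearMap.range ψ = ⊤ := by
      rw [LinearMap.range_eq_top]
      apply LinearMap.surjective
      intro h
      exact hφ0 (LinearMap.congr_fun h ⟨x₀, hx₀⟩)
    have hker : finrank ℂ (LinearMap.ker ψ) = n := by
      have := ψ.finrank_range_add_finrank_ker
      rw [hψ, finrank_top, finrank_self, hn] at this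
      omega
    obtain ⟨g, o, hg, ho, hmono⟩ := ih ((LinearMap.ker ψ).map W.subtype)
      (by infer_instance) (by rw [Submodule.finrank_map_subtype_eq]; exact hker)
    refine ⟨Fin.cons x₀ g, Fin.cons m o, fun i => ?_, fun i => ?_, ?_⟩
    · refine Fin.cases hx₀ (fun i => ?_) i
      rw [Fin.cons_succ]
      obtain ⟨y, -, hy⟩ := hg i
      rw [← hy]
      exact y.2
    · refine Fin.cases ?_ (fun i => ?_) i
      · simpa using hord
      · simpa using ho i
    · have hlt : ∀ i, m < o i := by
        intro i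
        obtain ⟨y, hy1, hy⟩ := hg i
        have hyW : g i ∈ W := by rw [← hy]; exact y.2
        have hφ : φ (g i) = 0 := by
          rw [← hy]
          exact hy1
        have hg0 : g i ≠ 0 := by
          intro h0
          have h1 := ho i
          rw [h0, map_zero] at h1
          have h2 : analyticOrderAt (0 : ℂ → ℂ) z₀ = ⊤ := by
            rw [analyticOrderAt_eq_top]
            exact Filter.Eventually.of_forall fun _ => rfl
          rw [h2] at h1
          exact ENat.top_ne_natCast _ h1
        rcases (hmin _ hyW hg0 _ (ho i)).lt_or_eq with h | h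
        · exact h
        · exfalso
          have h1 := ((analyticOrderAt_eq_nat_iff_iteratedDeriv_eq_zero (han (g i))).mp (ho i)).2
          rw [← h] at h1
          exact h1 hφ
      intro i j hij
      refine Fin.cases (fun hij => ?_) (fun i hij => ?_) i hij
      · obtain ⟨j', rfl⟩ := Fin.exists_succ_eq.mpr (Fin.pos_iff_ne_zero.mp hij)
        simpa using hlt j'
      · obtain ⟨j', rfl⟩ := Fin.exists_succ_eq.mpr
          (Fin.pos_iff_ne_zero.mp ((Fin.succ_pos i).trans hij))
        simpa using hmono (Fin.succ_lt_succ_iff.mp hij)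

/-- functions with different orders at a point are linearly independent -/
theorem indep_of_orders {n : ℕ} {z₀ : ℂ} (g : Fin n → ℂ → ℂ) (hg : ∀ i, AnalyticAt ℂ (g i) z₀)
    {o : Fin n → ℕ} (ho : ∀ i, analyticOrderAt (g i) z₀ = o i) (hmono : StrictMono o)
    (c : Fin n → ℂ) (hc : ∀ᶠ z in nhds z₀, ∑ i, c i * g i z = 0) : c = 0 := by
  classical
  by_contra h0
  have hex : ∃ i, c i ≠ 0 := by
    by_contra h
    push Not at h
    exact h0 (funext h)
  obtain ⟨i, hi, hmin⟩ := (wellFounded_lt (α := Fin n)).has_min {i | c i ≠ 0} hex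
  have h1 : iteratedDeriv (o i) (fun z => ∑ j, c j * g j z) z₀ = 0 := by
    have h2 : (fun z => ∑ j, c j * g j z) =ᶠ[nhds z₀] fun _ => 0 := hc
    rw [h2.iteratedDeriv_eq]
    rcases o i with _ | m
    · simp
    · rw [iteratedDeriv_const]; simp
  rw [iteratedDeriv_sum_mul Finset.univ c hg, Finset.sum_eq_single i] at h1
  · rcases mul_eq_zero.mp h1 with h2 | h2
    · exact hi h2
    · exact ((analyticOrderAt_eq_nat_iff_iteratedDeriv_eq_zero (hg i)).mp (ho i)).2 h2
  · intro j _ hj
    rcases lt_or_gt_of_ne hj with h2 | h2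
    · have : c j = 0 := by
        by_contra h3
        exact hmin j h3 h2
      rw [this, zero_mul]
    · rw [((analyticOrderAt_eq_nat_iff_iteratedDeriv_eq_zero (hg j)).mp (ho j)).1 _ (hmono h2),
        mul_zero]
  · simp

end Pool.Agent.Helper20.FP
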