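import Pool.Agent.Helper20.FP.Orders
import Pool.Agent.Helper20.FP.Master

set_option autoImplicit false

namespace Pool.Agent.Helper20.FP

open MvPolynomial Module

/-- the combination of the coordinates `σ a` with coefficients `c a`, along `f` -/
noncomputable def evl {N s : ℕ} (f : ℂ → Fin (N + 1) → ℂ) (σ : Fin (s + 1) → Fin (N + 1)) :
    (Fin (s + 1) → ℂ) →ₗ[ℂ] (ℂ → ℂ) where
  toFun c z := ∑ a, c a * f z (σ a)
  map_add' c c' := by
    funext z
    simp [add_mul, Finset.sum_add_distrib]
  map_smul' r c := by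
    funext z
    simp [Finset.mul_sum, mul_assoc]

/-- the position of the exponent `t` in the chain -/
def pos (s d t : ℕ) : Fin (s + 1) := ⟨min (t / d) s, by omega⟩

def pos' (s d t : ℕ) : Fin (s + 1) := ⟨min (t / d + 1) s, by omega⟩

/-- the order of the `t`-th element of the chain -/
def ord {s : ℕ} (o : Fin (s + 1) → ℕ) (d t : ℕ) : ℕ :=
  (d - t % d) * o (pos s d t) + t % d * o (pos' s d t)

theorem ord_lt {s : ℕ} {o : Fin (s + 1) → ℕ} (ho : StrictMono o) {d : ℕ} {t : ℕ}
    (ht : t + 1 ≤ s * d) : ord o d t < ord o d (t + 1) := by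
  have hd : 0 < d := by
    rcases Nat.eq_zero_or_pos d with h | h
    · subst h; omega
    · exact h
  have ha : t / d < s := by
    rw [Nat.div_lt_iff_lt_mul hd]
    omega
  have hb : t % d < d := Nat.mod_lt _ hd
  have h1 : o (pos s d t) < o (pos' s d t) := by
    apply ho
    rw [Fin.lt_def]
    simp only [pos, pos']
    omega
  have hdm := Nat.div_add_mod t d
  by_cases hc : t % d + 1 < d
  · have e1 : (t + 1) / d = t / d := by
      rw [Nat.div_eq_iff hd]
      have h5 : t / d * d = d * (t / d) := mul_comm _ _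
      constructor <;> omega
    have e2 : (t + 1) % d = t % d + 1 := by
      have := Nat.div_add_mod (t + 1) d
      rw [e1] at this
      omega
    have p1 : pos s d (t + 1) = pos s d t := by
      unfold pos; simp only [e1]
    have p2 : pos' s d (t + 1) = pos' s d t := by
      unfold pos'; simp only [e1]
    unfold ord
    rw [p1, p2, e2]
    obtain ⟨r, hr⟩ : ∃ r, d = t % d + 1 + r := ⟨d - (t % d + 1), by omega⟩
    have h3 : d - t % d = r + 1 := by omega
    have h4 : d - (t % d + 1) = r := by omega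
    rw [h3, h4]
    nlinarith
  · have hb' : t % d + 1 = d := by omega
    have e1 : (t + 1) / d = t / d + 1 := by
      have : t + 1 = d * (t / d + 1) := by
        rw [mul_add, mul_one]
        omega
      rw [this, Nat.mul_div_cancel_left _ hd]
    have e2 : (t + 1) % d = 0 := by
      have : t + 1 = d * (t / d + 1) := by
        rw [mul_add, mul_one]
        omega
      rw [this, Nat.mul_mod_right]
    have p1 : pos s d (t + 1) = pos' s d t := by
      unfold pos pos'; simp only [e1]
    unfold ord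
    rw [p1, e2]
    have h3 : d - t % d = 1 := by omega
    rw [h3, Nat.sub_zero, zero_mul, add_zero, one_mul]
    have h6 : d * o (pos' s d t) = t % d * o (pos' s d t) + o (pos' s d t) := by
      calc d * o (pos' s d t) = (t % d + 1) * o (pos' s d t) := by rw [hb']
        _ = _ := by ring
    rw [h6]
    omega

theorem ord_mono {s : ℕ} {o : Fin (s + 1) → ℕ} (ho : StrictMono o) (d : ℕ) :
    StrictMono fun t : Fin (s * d + 1) => ord o d t := by
  rw [Fin.strictMono_iff_lt_succ]
  intro i
  have := i.2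
  exact ord_lt ho (by simpa using this)

theorem rank_ge {N s d : ℕ} {U : Set ℂ} (hU : IsOpen U) (hUc : IsPreconnected U)
    {f : ℂ → Fin (N + 1) → ℂ} (hf : ∀ j, AnalyticOnNhd ℂ (fun z => f z j) U) {z₀ : ℂ}
    (hz₀ : z₀ ∈ U) {σ : Fin (s + 1) → Fin (N + 1)}
    (hσ : ∀ c : Fin (s + 1) → ℂ, (∀ z ∈ U, ∑ a, c a * f z (σ a) = 0) → c = 0) :
    ∃ S : Set {α : Fin (N + 1) →₀ ℕ // α.degree = d}, s * d + 1 ≤ Nat.card S ∧
      LinearIndepOn ℂ (fun (α : {α : Fin (N + 1) →₀ ℕ // α.degree = d}) (z : U) =>
        mono f α.1 z) S := by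
  classical
  let _ : Fintype {α : Fin (N + 1) →₀ ℕ // α.degree = d} := Fintype.ofFinite _
  have han' : ∀ c, AnalyticOnNhd ℂ (evl f σ c) U := by
    intro c
    show AnalyticOnNhd ℂ (fun z => ∑ a, c a * f z (σ a)) U
    exact Finset.analyticOnNhd_fun_sum _ fun a _ => analyticOnNhd_const.mul (hf (σ a))
  have han : ∀ c, AnalyticAt ℂ (evl f σ c) z₀ := fun c => han' c z₀ hz₀
  have hfin : ∀ c, c ≠ 0 → analyticOrderAt (evl f σ c) z₀ ≠ ⊤ := by
    intro c hc h
    rw [analyticOrderAt_eq_top] at h
    apply hc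
    apply hσ
    intro z hz
    exact (han' c).eqOn_zero_of_preconnected_of_eventuallyEq_zero hUc hz₀ h hz
  obtain ⟨g, o, -, ho, hmono⟩ := orders z₀ (evl f σ) han hfin (s + 1) ⊤ inferInstance
    (by rw [finrank_top, finrank_fin_fun])
  set E : Fin (s * d + 1) → ℂ → ℂ := fun t =>
    (evl f σ (g (pos s d t))) ^ (d - (t : ℕ) % d) * (evl f σ (g (pos' s d t))) ^ ((t : ℕ) % d)
    with hE
  have hEan : ∀ t, AnalyticAt ℂ (E t) z₀ := fun t => ((han _).pow _).mul ((han _).pow _)
  have hEo : ∀ t : Fin (s * d + 1), analyticOrderAt (E t) z₀ = (ord o d t : ℕ) := by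
    intro t
    rw [hE]
    simp only
    rw [analyticOrderAt_mul ((han _).pow _) ((han _).pow _), analyticOrderAt_pow (han _),
      analyticOrderAt_pow (han _), ho, ho]
    unfold ord
    push_cast
    simp [nsmul_eq_mul]
  set Eu : Fin (s * d + 1) → U → ℂ := fun t z => E t z with hEu
  have hli : LinearIndependent ℂ Eu := by
    rw [Fintype.linearIndependent_iff]
    intro c hc t
    have h1 := indep_of_orders E hEan hEo (ord_mono hmono d) c (by
      filter_upwards [hU.mem_nhds hz₀] with z hz
      have := congrFun hc ⟨z, hz⟩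
      simpa [Finset.sum_apply] using this)
    rw [h1]
    rfl
  set v : {α : Fin (N + 1) →₀ ℕ // α.degree = d} → U → ℂ := fun α z => mono f α.1 z with hv
  have hmem : ∀ t, Eu t ∈ Submodule.span ℂ (Set.range v) := by
    intro t
    let Lin : (Fin (s + 1) → ℂ) → MvPolynomial (Fin (N + 1)) ℂ := fun c =>
      ∑ a, C (c a) * X (σ a)
    have hLin : ∀ c z, eval (f z) (Lin c) = evl f σ c z := by
      intro c z
      simp [Lin, evl]
    have hLinh : ∀ c, (Lin c).IsHomogeneous 1 := fun c => by
      refine IsHomogeneous.sum _ _ _ fun a _ => ?_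
      simpa using (isHomogeneous_C (Fin (N + 1)) (c a)).mul (isHomogeneous_X ℂ (σ a))
    set G := Lin (g (pos s d t)) ^ (d - (t : ℕ) % d) * Lin (g (pos' s d t)) ^ ((t : ℕ) % d)
      with hG
    have hmod : (t : ℕ) % d ≤ d := by
      rcases Nat.eq_zero_or_pos d with h | h
      · subst h
        have := t.2
        simp at this ⊢
      · exact (Nat.mod_lt _ h).le
    have hGh : G.IsHomogeneous d := by
      have := ((hLinh (g (pos s d t))).pow (d - (t : ℕ) % d)).mul
        ((hLinh (g (pos' s d t))).pow ((t : ℕ) % d))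
      convert this using 1
      omega
    have h2 : Eu t = ∑ α, G.coeff α.1 • v α := by
      funext z
      have h3 : eval (f z) G = E t z := by
        rw [hG, map_mul, map_pow, map_pow, hLin, hLin]
        rfl
      show E t z = _
      rw [← h3, eval_form hGh f z]
      simp [hv, Finset.sum_apply]
    rw [h2]
    exact Submodule.sum_mem _ fun α _ => Submodule.smul_mem _ _
      (Submodule.subset_span ⟨α, rfl⟩)
  obtain ⟨κ, a, ha, hspan, hκ⟩ := exists_linearIndependent' ℂ v
  have hfinκ : Finite κ := Finite.of_injective a ha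
  let _ : Fintype κ := Fintype.ofFinite κ
  refine ⟨Set.range a, ?_, (linearIndepOn_range_iff ha v).mpr hκ⟩
  have h3 : Nat.card (Set.range a) = Nat.card κ :=
    (Nat.card_congr (Equiv.ofInjective _ ha)).symm
  have h4 : finrank ℂ (Submodule.span ℂ (Set.range (v ∘ a))) = Fintype.card κ :=
    finrank_span_eq_card hκ
  have h5 : finrank ℂ (Submodule.span ℂ (Set.range Eu)) = s * d + 1 := by
    rw [finrank_span_eq_card hli, Fintype.card_fin]
  have h6 : finrank ℂ (Submodule.span ℂ (Set.range Eu)) ≤
      finrank ℂ (Submodule.span ℂ (Set.range v)) := by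
    have : FiniteDimensional ℂ (Submodule.span ℂ (Set.range v)) :=
      FiniteDimensional.span_of_finite ℂ (Set.finite_range v)
    refine Submodule.finrank_mono ?_
    rw [Submodule.span_le]
    rintro _ ⟨t, rfl⟩
    exact hmem t
  rw [h3, Nat.card_eq_fintype_card, ← h4, hspan]
  omega

/-- The linear span: a curve with fewer than `∑ (s * d i + 1)` parameters lies in a linear subspace
of dimension less than `s`. -/
theorem span_bound {k : Subfield ℂ} {q N : ℕ} {d : Fin q → ℕ}
    {F : Fin q → MvPolynomial (Fin (N + 1)) ℂ} (hF : VeryGeneral k d F) {U : Set ℂ}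
    (hU : IsOpen U) (hUc : IsPreconnected U) {f : ℂ → Fin (N + 1) → ℂ}
    (hf : ∀ j, AnalyticOnNhd ℂ (fun z => f z j) U)
    {T : ℕ} (hT : Parameters k U (coordValues F f) T) {s : ℕ} (h : T < ∑ i, (s * d i + 1))
    (σ : Fin (s + 1) → Fin (N + 1)) :
    ∃ c : Fin (s + 1) → ℂ, c ≠ 0 ∧ ∀ z ∈ U, ∑ a, c a * f z (σ a) = 0 := by
  classical
  by_contra hcon
  push Not at hcon
  obtain ⟨z₀, hz₀, -⟩ := id hT
  have hσ : ∀ c : Fin (s + 1) → ℂ, (∀ z ∈ U, ∑ a, c a * f z (σ a) = 0) → c = 0 := by
    intro c hc
    by_contra h0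
    obtain ⟨z, hz, hz'⟩ := hcon c h0
    exact hz' (hc z hz)
  choose S hS1 hS2 using fun i => rank_ge (d := d i) hU hUc hf hz₀ hσ
  have hind : IndepSet d U f S := by
    intro i l hl hz
    have h1 := linearIndepOn_iff.mp (hS2 i) l (by
      rw [Finsupp.mem_supported]
      intro α hα
      by_contra h2
      exact (Finsupp.mem_support_iff.mp hα) (hl α h2)) (by
      funext z
      have := hz z.1 z.2
      rw [Finsupp.linearCombination_apply, Finsupp.sum, Finset.sum_apply]
      rw [Finsupp.sum] at this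
      simpa using this)
    exact h1
  have h1 := master hF hUc hf hT hind
  have h2 : ∑ i, (s * d i + 1) ≤ ∑ i, Nat.card (S i) := Finset.sum_le_sum fun i _ => hS1 i
  omega

end Pool.Agent.Helper20.FP
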